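import Pool.Agent.H61.F3b

/-!
# Among `m` points of `F_3^n` the largest number of lines is attained in the smallest dimension
-/

set_option autoImplicit false
set_option linter.unusedSectionVars false

namespace Pool.Agent.Results.MP_757c6b_co.DimensionFree

open Finset H61.F3

/-- A line of `F_3^n`: a set `{x, x + v, x + 2v}` with `v ≠ 0`. -/
def IsLine {n : ℕ} (l : Finset (Fin n → ZMod 3)) : Prop :=
  ∃ x v : Fin n → ZMod 3, v ≠ 0 ∧ l = {x, x + v, x + 2 • v}

open Classical in
/-- The number `L(S)` of lines contained in `S`. -/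
noncomputable def numLines {n : ℕ} (S : Finset (Fin n → ZMod 3)) : ℕ :=
  (S.powerset.filter IsLine).card

/-- `M(m, n)`: the largest number of lines in a set of `m` points of `F_3^n`. -/
noncomputable def maxLines (m n : ℕ) : ℕ :=
  (Finset.powersetCard m (Finset.univ : Finset (Fin n → ZMod 3))).sup numLines

theorem exp3 {n : ℕ} (x : Fin n → ZMod 3) : x + x + x = 0 := by
  funext i
  have : ∀ a : ZMod 3, a + a + a = 0 := by decide
  exact this (x i)

theorem two_ne {n : ℕ} {v : Fin n → ZMod 3} (hv : v ≠ 0) : v + v ≠ 0 := by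
  intro h
  apply hv
  have := exp3 v
  rw [h, zero_add] at this
  exact this

theorem t_eq {n : ℕ} (S : Finset (Fin n → ZMod 3)) :
    t S = (((S.offDiag).filter (fun p => -p.1 - p.2 ∈ S)).card : ℤ) := by
  classical
  have hneg : ∀ x : Fin n → ZMod 3, -x - x = x := by
    intro x
    have := exp3 x
    calc -x - x = -x - x + (x + x + x) := by rw [this, add_zero]
      _ = x := by abel
  have h1 : T S = (((S ×ˢ S).filter (fun p => -p.1 - p.2 ∈ S)).card : ℤ) := by
    unfold T Lam
    rw [Finset.card_filter]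
    push_cast
    rw [Finset.sum_product]
    have : ∀ f : (Fin n → ZMod 3) → ℤ, ∑ x ∈ S, f x = ∑ x, ind S x * f x := by
      intro f
      unfold ind
      simp
    rw [this]
    refine Finset.sum_congr rfl fun a _ => ?_
    rw [this, Finset.mul_sum]
    refine Finset.sum_congr rfl fun b _ => ?_
    unfold ind
    split_ifs <;> simp_all
  have h2 : (S ×ˢ S).filter (fun p => -p.1 - p.2 ∈ S) =
      (S.offDiag).filter (fun p => -p.1 - p.2 ∈ S) ∪ S.diag := by
    ext ⟨a, b⟩
    simp only [Finset.mem_filter, Finset.mem_product, Finset.mem_union, Finset.mem_offDiag,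
      Finset.mem_diag]
    constructor
    · rintro ⟨⟨ha, hb⟩, hc⟩
      by_cases hab : a = b
      · right; exact ⟨ha, hab⟩
      · left; exact ⟨⟨ha, hb, hab⟩, hc⟩
    · rintro (⟨⟨ha, hb, _⟩, hc⟩ | ⟨ha, rfl⟩)
      · exact ⟨⟨ha, hb⟩, hc⟩
      · exact ⟨⟨ha, ha⟩, by rw [hneg]; exact ha⟩
  have h3 : Disjoint ((S.offDiag).filter (fun p => -p.1 - p.2 ∈ S)) S.diag := by
    refine Finset.disjoint_of_subset_left (Finset.filter_subset _ _) ?_
    exact (Finset.disjoint_diag_offDiag S).symm
  unfold t
  rw [h1, h2, Finset.card_union_of_disjoint h3, Finset.diag_card]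
  push_cast
  ring

theorem line_card {n : ℕ} {x v : Fin n → ZMod 3} (hv : v ≠ 0) :
    ({x, x + v, x + 2 • v} : Finset (Fin n → ZMod 3)).card = 3 := by
  have h1 : x ≠ x + v := fun h => hv (by simpa using h.symm)
  have h2 : x ≠ x + 2 • v := fun h => two_ne hv (by
    have : 2 • v = 0 := by simpa using h.symm
    rwa [two_nsmul] at this)
  have h3 : x + v ≠ x + 2 • v := fun h => hv (by
    rw [two_nsmul, ← add_assoc] at h
    simpa using h.symm)
  rw [Finset.card_insert_of_notMem, Finset.card_pair h3]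
  simp only [Finset.mem_insert, Finset.mem_singleton, not_or]
  exact ⟨h1, h2⟩

theorem line_third {n : ℕ} {x v a b : Fin n → ZMod 3}
    (ha : a ∈ ({x, x + v, x + 2 • v} : Finset (Fin n → ZMod 3)))
    (hb : b ∈ ({x, x + v, x + 2 • v} : Finset (Fin n → ZMod 3))) (hab : a ≠ b) :
    ({a, b, -a - b} : Finset (Fin n → ZMod 3)) = {x, x + v, x + 2 • v} := by
  have e3x := exp3 x
  have e3v := exp3 v
  have k1 : -x - (x + v) = x + 2 • v := by
    rw [two_nsmul]
    calc -x - (x + v) = (x + (v + v)) - (x + x + x) - (v + v + v) := by abel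
      _ = x + (v + v) := by rw [e3x, e3v]; abel
  have k2 : -x - (x + 2 • v) = x + v := by
    rw [two_nsmul]
    calc -x - (x + (v + v)) = (x + v) - (x + x + x) - (v + v + v) := by abel
      _ = x + v := by rw [e3x, e3v]; abel
  have k3 : -(x + v) - (x + 2 • v) = x := by
    rw [two_nsmul]
    calc -(x + v) - (x + (v + v)) = x - (x + x + x) - (v + v + v) := by abel
      _ = x := by rw [e3x, e3v]; abel
  simp only [Finset.mem_insert, Finset.mem_singleton] at ha hb
  rcases ha with rfl | rfl | rfl <;> rcases hb with rfl | rfl | rfl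
  · exact absurd rfl hab
  · rw [k1]
  · rw [k2, Finset.pair_comm]
  · rw [show -(b + v) - b = -b - (b + v) by abel, k1, Finset.insert_comm]
  · exact absurd rfl hab
  · rw [k3]
    ext y; simp only [Finset.mem_insert, Finset.mem_singleton]; tauto
  · rw [show -(b + 2 • v) - b = -b - (b + 2 • v) by abel, k2]
    ext y; simp only [Finset.mem_insert, Finset.mem_singleton]; tauto
  · rw [show -(x + 2 • v) - (x + v) = -(x + v) - (x + 2 • v) by abel, k3]
    ext y; simp only [Finset.mem_insert, Finset.mem_singleton]; tauto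
  · exact absurd rfl hab

theorem t_eq_numLines {n : ℕ} (S : Finset (Fin n → ZMod 3)) : t S = 6 * (numLines S : ℤ) := by
  classical
  rw [t_eq]
  set P := (S.offDiag).filter (fun p => -p.1 - p.2 ∈ S) with hP
  have hneg : ∀ x : Fin n → ZMod 3, -x - x = x := by
    intro x
    have := exp3 x
    calc -x - x = -x - x + (x + x + x) := by rw [this, add_zero]
      _ = x := by abel
  have hmaps : ∀ p ∈ P, ({p.1, p.2, -p.1 - p.2} : Finset (Fin n → ZMod 3)) ∈ S.powerset.filter IsLine := by
    rintro ⟨a, b⟩ hp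
    rw [hP, Finset.mem_filter, Finset.mem_offDiag] at hp
    obtain ⟨⟨ha, hb, hab⟩, hc⟩ := hp
    rw [Finset.mem_filter, Finset.mem_powerset]
    constructor
    · intro y hy
      simp only [Finset.mem_insert, Finset.mem_singleton] at hy
      rcases hy with rfl | rfl | rfl
      · exact ha
      · exact hb
      · exact hc
    · refine ⟨a, b - a, sub_ne_zero.2 (Ne.symm hab), ?_⟩
      have e1 : a + (b - a) = b := by abel
      have e2 : a + 2 • (b - a) = -a - b := by
        rw [two_nsmul]
        calc a + ((b - a) + (b - a)) = (-a - b) + (b + b + b) := by abel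
          _ = -a - b := by rw [exp3, add_zero]
      rw [e1, e2]
  have hcount := Finset.card_eq_sum_card_fiberwise (f := fun p : (Fin n → ZMod 3) × (Fin n → ZMod 3) =>
    ({p.1, p.2, -p.1 - p.2} : Finset (Fin n → ZMod 3))) (s := P) (t := S.powerset.filter IsLine)
    (fun p hp => hmaps p hp)
  have hfib : ∀ l ∈ S.powerset.filter IsLine,
      (P.filter (fun p => ({p.1, p.2, -p.1 - p.2} : Finset (Fin n → ZMod 3)) = l)).card = 6 := by
    intro l hl
    rw [Finset.mem_filter, Finset.mem_powerset] at hl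
    obtain ⟨hlS, x, v, hv, hl2⟩ := hl
    have hlc : l.card = 3 := by rw [hl2]; exact line_card hv
    have : P.filter (fun p => ({p.1, p.2, -p.1 - p.2} : Finset (Fin n → ZMod 3)) = l) = l.offDiag := by
      ext ⟨a, b⟩
      simp only [Finset.mem_filter, Finset.mem_offDiag, hP]
      constructor
      · rintro ⟨⟨⟨_, _, hab⟩, _⟩, he⟩
        refine ⟨?_, ?_, hab⟩
        · rw [← he]; simp
        · rw [← he]; simp
      · rintro ⟨ha, hb, hab⟩
        have h3 : ({a, b, -a - b} : Finset (Fin n → ZMod 3)) = l := by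
          rw [hl2] at ha hb ⊢
          exact line_third ha hb hab
        refine ⟨⟨⟨hlS ha, hlS hb, hab⟩, ?_⟩, h3⟩
        apply hlS
        rw [← h3]
        simp
    rw [this, Finset.offDiag_card, hlc]
  rw [Finset.sum_congr rfl hfib, Finset.sum_const, smul_eq_mul] at hcount
  unfold numLines
  have : (P.card : ℤ) = ((S.powerset.filter IsLine).card * 6 : ℕ) := by exact_mod_cast hcount
  rw [this]
  push_cast
  ring

/-! ### changing coordinates -/

section equiv

variable {G G' : Type*} [AddCommGroup G] [Fintype G] [DecidableEq G] [AddCommGroup G'] [Fintype G']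
  [DecidableEq G']

theorem ind_map (e : G ≃+ G') (S : Finset G') (x : G) :
    ind (S.map e.symm.toEquiv.toEmbedding) x = ind S (e x) := by
  unfold ind
  have : x ∈ S.map e.symm.toEquiv.toEmbedding ↔ e x ∈ S := by
    rw [Finset.mem_map_equiv]
    rfl
  simp only [this]

theorem T_map (e : G ≃+ G') (S : Finset G') : T (S.map e.symm.toEquiv.toEmbedding) = T S := by
  unfold T Lam
  rw [← Equiv.sum_comp e.toEquiv (fun a => ∑ b, ind S a * ind S b * ind S (-a - b))]
  refine Finset.sum_congr rfl fun a _ => ?_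
  rw [← Equiv.sum_comp e.toEquiv (fun b => ind S (e.toEquiv a) * ind S b * ind S (-(e.toEquiv a) - b))]
  refine Finset.sum_congr rfl fun b _ => ?_
  rw [ind_map, ind_map, ind_map, map_sub, map_neg]
  rfl

theorem rep_map (e : G ≃+ G') (S : Finset G') (v : G) :
    rep (S.map e.symm.toEquiv.toEmbedding) v = rep S (e v) := by
  unfold rep
  rw [← Equiv.sum_comp e.toEquiv (fun a => ind S a * ind S (a + e v))]
  refine Finset.sum_congr rfl fun a _ => ?_
  rw [ind_map, ind_map, map_add]
  rfl

end equiv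

/-- coordinates in which `v` becomes the last basis vector -/
theorem exists_coord {k : ℕ} (v : Fin (k + 1) → ZMod 3) (hv : v ≠ 0) :
    ∃ e : ((Fin k → ZMod 3) × ZMod 3) ≃+ (Fin (k + 1) → ZMod 3), e (0, 1) = v := by
  obtain ⟨i, hi⟩ : ∃ i, v i ≠ 0 := by
    by_contra hcon
    push Not at hcon
    exact hv (funext hcon)
  let f : ((Fin k → ZMod 3) × ZMod 3) → (Fin (k + 1) → ZMod 3) := fun p =>
    i.insertNth 0 p.1 + p.2 • v
  let g : (Fin (k + 1) → ZMod 3) → ((Fin k → ZMod 3) × ZMod 3) := fun x =>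
    (fun j => (x - (x i * (v i)⁻¹) • v) (i.succAbove j), x i * (v i)⁻¹)
  have hfi : ∀ p, f p i = p.2 * v i := by
    intro p
    simp [f]
  have hfj : ∀ p j, f p (i.succAbove j) = p.1 j + p.2 * v (i.succAbove j) := by
    intro p j
    simp [f]
  have hgf : ∀ p, g (f p) = p := by
    intro p
    have h1 : f p i * (v i)⁻¹ = p.2 := by
      rw [hfi, mul_assoc, mul_inv_cancel₀ hi, mul_one]
    refine Prod.ext ?_ h1
    funext j
    simp only [g, Pi.sub_apply, Pi.smul_apply, smul_eq_mul, h1, hfj]
    ring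
  have hfg : ∀ x, f (g x) = x := by
    intro x
    funext j
    rcases Fin.eq_self_or_eq_succAbove i j with rfl | ⟨j', rfl⟩
    · rw [hfi]
      simp only [g]
      rw [mul_assoc, inv_mul_cancel₀ hi, mul_one]
    · rw [hfj]
      simp only [g, Pi.sub_apply, Pi.smul_apply, smul_eq_mul]
      ring
  have hadd : ∀ p q, f (p + q) = f p + f q := by
    intro p q
    funext j
    rcases Fin.eq_self_or_eq_succAbove i j with rfl | ⟨j', rfl⟩
    · rw [hfi, Pi.add_apply, hfi, hfi, Prod.snd_add]
      ring
    · rw [hfj, Pi.add_apply, hfj, hfj, Prod.snd_add, Prod.fst_add, Pi.add_apply]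
      ring
  refine ⟨{ toFun := f, invFun := g, left_inv := hgf, right_inv := hfg, map_add' := hadd }, ?_⟩
  change f (0, 1) = v
  funext j
  rcases Fin.eq_self_or_eq_succAbove i j with rfl | ⟨j', rfl⟩
  · rw [hfi]; simp
  · rw [hfj]; simp

theorem reduce_fin {k : ℕ} (S : Finset (Fin (k + 1) → ZMod 3)) (hS : S.card ≤ 3 ^ k) :
    ∃ S' : Finset (Fin k → ZMod 3), S'.card = S.card ∧ numLines S ≤ numLines S' := by
  have hne : (Finset.univ.filter (fun v : Fin (k + 1) → ZMod 3 => v ≠ 0)).Nonempty :=
    ⟨fun _ => 1, by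
      rw [Finset.mem_filter]
      refine ⟨Finset.mem_univ _, fun h => ?_⟩
      have := congrFun h 0
      simp at this⟩
  obtain ⟨v, hv, hmin⟩ := Finset.exists_min_image _ (rep S) hne
  rw [Finset.mem_filter] at hv
  obtain ⟨e, he⟩ := exists_coord v hv.2
  have hcardU : Fintype.card (Fin k → ZMod 3) = 3 ^ k := by
    rw [Fintype.card_fun, ZMod.card, Fintype.card_fin]
  obtain ⟨S', hS'c, hS'T⟩ := reduce (fun x => exp3 x) (S.map e.symm.toEquiv.toEmbedding)
    (by rw [Finset.card_map, hcardU]; exact hS) (by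
      intro w hw
      rw [rep_map, rep_map, he]
      refine hmin _ ?_
      rw [Finset.mem_filter]
      exact ⟨Finset.mem_univ _, (map_ne_zero_iff e e.injective).2 hw⟩)
  rw [Finset.card_map] at hS'c
  rw [T_map] at hS'T
  refine ⟨S', hS'c, ?_⟩
  have h1 := t_eq_numLines S
  have h2 := t_eq_numLines S'
  unfold t at h1 h2
  rw [hS'c] at h2
  have : (numLines S : ℤ) ≤ numLines S' := by linarith
  exact_mod_cast this

theorem lift_fin {k : ℕ} (S : Finset (Fin k → ZMod 3)) :
    ∃ S' : Finset (Fin (k + 1) → ZMod 3), S'.card = S.card ∧ numLines S ≤ numLines S' := by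
  classical
  let ι : (Fin k → ZMod 3) ↪ (Fin (k + 1) → ZMod 3) :=
    ⟨fun x => Fin.cons 0 x, fun x y h => by simpa using h⟩
  have hι0 : ∀ x, ι x 0 = 0 := fun x => rfl
  have hιs : ∀ x (j : Fin k), ι x j.succ = x j := fun x j => rfl
  have hadd : ∀ x y, ι (x + y) = ι x + ι y := by
    intro x y
    funext j
    refine Fin.cases ?_ (fun j => ?_) j
    · rw [Pi.add_apply, hι0, hι0, hι0, add_zero]
    · rw [Pi.add_apply, hιs, hιs, hιs, Pi.add_apply]
  have hsmul : ∀ x, ι (2 • x) = 2 • ι x := by
    intro x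
    rw [two_nsmul, two_nsmul, hadd]
  have hzero : ∀ x, x ≠ 0 → ι x ≠ 0 := by
    intro x hx h
    apply hx
    funext j
    have := congrFun h j.succ
    rwa [hιs] at this
  refine ⟨S.map ι, Finset.card_map _, ?_⟩
  unfold numLines
  refine Finset.card_le_card_of_injOn (fun l => l.map ι) ?_ ?_
  · intro l hl
    rw [Finset.mem_coe, Finset.mem_filter, Finset.mem_powerset] at hl
    rw [Finset.mem_coe, Finset.mem_filter, Finset.mem_powerset]
    obtain ⟨hlS, x, v, hv, rfl⟩ := hl
    refine ⟨Finset.map_subset_map.2 hlS, ι x, ι v, hzero v hv, ?_⟩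
    change Finset.map ι {x, x + v, x + 2 • v} = _
    rw [Finset.map_insert, Finset.map_insert, Finset.map_singleton, hadd, hadd, hsmul]
  · intro l _ l' _ h
    exact Finset.map_injective ι h

theorem maxLines_succ (m k : ℕ) (hm : m ≤ 3 ^ k) : maxLines m (k + 1) = maxLines m k := by
  apply le_antisymm
  · refine Finset.sup_le fun S hS => ?_
    rw [Finset.mem_powersetCard] at hS
    obtain ⟨S', hc, hl⟩ := reduce_fin S (by rw [hS.2]; exact hm)
    exact hl.trans (Finset.le_sup (f := numLines)
      (Finset.mem_powersetCard.2 ⟨Finset.subset_univ _, hc.trans hS.2⟩))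
  · refine Finset.sup_le fun S hS => ?_
    rw [Finset.mem_powersetCard] at hS
    obtain ⟨S', hc, hl⟩ := lift_fin S
    exact hl.trans (Finset.le_sup (f := numLines)
      (Finset.mem_powersetCard.2 ⟨Finset.subset_univ _, hc.trans hS.2⟩))

/-- `M(m, n) = M(m, d)` for all `n ≥ d = ⌈log_3 m⌉`. -/
theorem result (m n : ℕ) (_hm : 1 ≤ m) (hn : Nat.clog 3 m ≤ n) :
    maxLines m n = maxLines m (Nat.clog 3 m) := by
  obtain ⟨j, rfl⟩ := Nat.exists_eq_add_of_le hn
  clear hn
  induction j with
  | zero => rfl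
  | succ j ih =>
    rw [← Nat.add_assoc, maxLines_succ, ih]
    calc m ≤ 3 ^ (Nat.clog 3 m) := Nat.le_pow_clog (by norm_num) m
      _ ≤ 3 ^ (Nat.clog 3 m + j) := Nat.pow_le_pow_right (by norm_num) (Nat.le_add_right _ _)

end Pool.Agent.Results.MP_757c6b_co.DimensionFree
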